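import Mathlib

namespace Pool.Agent.Results.MP_8eede0_co.HexagonCentre

open Set Topology

/-- The Euclidean plane. -/
abbrev Plane : Type := EuclideanSpace ℝ (Fin 2)

/-- A rectifiable Jordan arc: the image of `[0,1]` under an injective continuous map of bounded
variation. -/
def IsRectifiableArc (A : Set Plane) : Prop :=
  ∃ γ : ℝ → Plane, ContinuousOn γ (Icc 0 1) ∧ InjOn γ (Icc 0 1) ∧
    BoundedVariationOn γ (Icc 0 1) ∧ γ '' Icc 0 1 = A

/-- A congruent dissection of the plane set `K` into the pieces `P 0, …, P (n-1)`: compact sets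
with union `K` and with pairwise disjoint interiors, each of them the closure of its interior,
each of them with a boundary that is a finite union of rectifiable Jordan arcs, and any two of
them congruent. -/
structure IsCongruentDissection (K : Set Plane) {n : ℕ} (P : Fin n → Set Plane) : Prop where
  compact : ∀ i, IsCompact (P i)
  cover : ⋃ i, P i = K
  disjoint : ∀ i j, i ≠ j → Disjoint (interior (P i)) (interior (P j))
  regular : ∀ i, closure (interior (P i)) = P i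
  boundary : ∀ i, ∃ F : Set (Set Plane), F.Finite ∧ (∀ A ∈ F, IsRectifiableArc A) ∧
    frontier (P i) = ⋃₀ F
  congruent : ∀ i j, ∃ g : Plane ≃ᵢ Plane, g '' P i = P j

/-- The regular `n`-gon with centre `0` and circumradius `R`. -/
noncomputable def regularPolygon (n : ℕ) (R : ℝ) : Set Plane :=
  convexHull ℝ (Set.range fun k : Fin n =>
    (!₂[R * Real.cos (2 * Real.pi * k / n), R * Real.sin (2 * Real.pi * k / n)] : Plane))

/-! ### The model piece in triangular coordinates -/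

/-- The model piece (a union of ten unit triangles of the triangular grid). -/
def inT (x y : ℝ) : Prop := 0 ≤ x ∧ x ≤ 2 ∧ 0 ≤ y ∧ x + y ≤ 4 ∧ (1 ≤ x ∨ x + y ≤ 3)

def T : Set (ℝ × ℝ) := {p | inT p.1 p.2}

def T1 : Set (ℝ × ℝ) := {p | 1 ≤ p.1 ∧ p.1 ≤ 2 ∧ 0 ≤ p.2 ∧ p.1 + p.2 ≤ 4}

def T2 : Set (ℝ × ℝ) := {p | 0 ≤ p.1 ∧ p.1 ≤ 2 ∧ 0 ≤ p.2 ∧ p.1 + p.2 ≤ 3}

theorem T_eq : T = T1 ∪ T2 := by
  ext p
  simp only [T, T1, T2, inT, mem_ofPred_eq, mem_union]
  constructor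
  · rintro ⟨h1, h2, h3, h4, h5 | h5⟩
    · exact Or.inl ⟨h5, h2, h3, h4⟩
    · exact Or.inr ⟨h1, h2, h3, h5⟩
  · rintro (⟨h1, h2, h3, h4⟩ | ⟨h1, h2, h3, h4⟩)
    · exact ⟨by linarith, h2, h3, h4, Or.inl h1⟩
    · exact ⟨h1, h2, h3, by linarith, Or.inr h4⟩

theorem T1_closed : IsClosed T1 := by
  have h1 : IsClosed {p : ℝ × ℝ | 1 ≤ p.1} := isClosed_le continuous_const continuous_fst
  have h2 : IsClosed {p : ℝ × ℝ | p.1 ≤ 2} := isClosed_le continuous_fst continuous_const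
  have h3 : IsClosed {p : ℝ × ℝ | 0 ≤ p.2} := isClosed_le continuous_const continuous_snd
  have h4 : IsClosed {p : ℝ × ℝ | p.1 + p.2 ≤ 4} :=
    isClosed_le (continuous_fst.add continuous_snd) continuous_const
  exact h1.inter (h2.inter (h3.inter h4))

theorem T2_closed : IsClosed T2 := by
  have h1 : IsClosed {p : ℝ × ℝ | 0 ≤ p.1} := isClosed_le continuous_const continuous_fst
  have h2 : IsClosed {p : ℝ × ℝ | p.1 ≤ 2} := isClosed_le continuous_fst continuous_const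
  have h3 : IsClosed {p : ℝ × ℝ | 0 ≤ p.2} := isClosed_le continuous_const continuous_snd
  have h4 : IsClosed {p : ℝ × ℝ | p.1 + p.2 ≤ 3} :=
    isClosed_le (continuous_fst.add continuous_snd) continuous_const
  exact h1.inter (h2.inter (h3.inter h4))

theorem T_closed : IsClosed T := by
  rw [T_eq]
  exact T1_closed.union T2_closed

theorem T_compact : IsCompact T := by
  refine IsCompact.of_isClosed_subset
    ((isCompact_Icc (a := (0:ℝ)) (b := 2)).prod (isCompact_Icc (a := (0:ℝ)) (b := 4))) T_closed ?_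
  rintro p ⟨h1, h2, h3, h4, -⟩
  exact ⟨⟨h1, h2⟩, ⟨h3, by linarith⟩⟩

theorem T1_convex : Convex ℝ T1 := by
  rintro p ⟨h1, h2, h3, h4⟩ q ⟨k1, k2, k3, k4⟩ a b ha hb hab
  simp only [T1, mem_ofPred_eq, Prod.fst_add, Prod.smul_fst, Prod.snd_add, Prod.smul_snd,
    smul_eq_mul]
  refine ⟨?_, ?_, ?_, ?_⟩
  · nlinarith [mul_le_mul_of_nonneg_left h1 ha, mul_le_mul_of_nonneg_left k1 hb]
  · nlinarith [mul_le_mul_of_nonneg_left h2 ha, mul_le_mul_of_nonneg_left k2 hb]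
  · nlinarith [mul_le_mul_of_nonneg_left h3 ha, mul_le_mul_of_nonneg_left k3 hb]
  · nlinarith [mul_le_mul_of_nonneg_left h4 ha, mul_le_mul_of_nonneg_left k4 hb]

theorem T2_convex : Convex ℝ T2 := by
  rintro p ⟨h1, h2, h3, h4⟩ q ⟨k1, k2, k3, k4⟩ a b ha hb hab
  simp only [T2, mem_ofPred_eq, Prod.fst_add, Prod.smul_fst, Prod.snd_add, Prod.smul_snd,
    smul_eq_mul]
  refine ⟨?_, ?_, ?_, ?_⟩
  · nlinarith [mul_le_mul_of_nonneg_left h1 ha, mul_le_mul_of_nonneg_left k1 hb]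
  · nlinarith [mul_le_mul_of_nonneg_left h2 ha, mul_le_mul_of_nonneg_left k2 hb]
  · nlinarith [mul_le_mul_of_nonneg_left h3 ha, mul_le_mul_of_nonneg_left k3 hb]
  · nlinarith [mul_le_mul_of_nonneg_left h4 ha, mul_le_mul_of_nonneg_left k4 hb]

theorem T1_int : ((3/2, 1) : ℝ × ℝ) ∈ interior T1 := by
  rw [mem_interior]
  refine ⟨Ioo 1 2 ×ˢ Ioo 0 2, ?_, isOpen_Ioo.prod isOpen_Ioo, ?_⟩
  · rintro p ⟨⟨h1, h2⟩, ⟨h3, h4⟩⟩
    exact ⟨h1.le, h2.le, h3.le, by linarith⟩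
  · constructor <;> constructor <;> norm_num

theorem T2_int : ((1, 1) : ℝ × ℝ) ∈ interior T2 := by
  rw [mem_interior]
  refine ⟨Ioo 0 (3/2) ×ˢ Ioo 0 (3/2), ?_, isOpen_Ioo.prod isOpen_Ioo, ?_⟩
  · rintro p ⟨⟨h1, h2⟩, ⟨h3, h4⟩⟩
    exact ⟨h1.le, by linarith, h3.le, by linarith⟩
  · constructor <;> constructor <;> norm_num

theorem T_regular : closure (interior T) = T := by
  apply subset_antisymm
  · exact closure_minimal interior_subset T_closed
  · have h1 : T1 ⊆ closure (interior T) := by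
      have := T1_convex.closure_interior_eq_closure_of_nonempty_interior ⟨_, T1_int⟩
      rw [T1_closed.closure_eq] at this
      rw [← this, T_eq]
      exact closure_mono (interior_mono subset_union_left)
    have h2 : T2 ⊆ closure (interior T) := by
      have := T2_convex.closure_interior_eq_closure_of_nonempty_interior ⟨_, T2_int⟩
      rw [T2_closed.closure_eq] at this
      rw [← this, T_eq]
      exact closure_mono (interior_mono subset_union_right)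
    intro p hp
    rw [T_eq] at hp
    rcases hp with hp | hp
    · exact h1 hp
    · exact h2 hp

/-- The interior of the model piece. -/
theorem T_interior : interior T =
    {p | 0 < p.1 ∧ p.1 < 2 ∧ 0 < p.2 ∧ p.1 + p.2 < 4 ∧ (1 < p.1 ∨ p.1 + p.2 < 3)} := by
  apply subset_antisymm
  · intro p hp
    have hdir : ∀ v : ℝ × ℝ, ∃ ε : ℝ, 0 < ε ∧ p + ε • v ∈ T := by
      intro v
      have hc : Continuous fun ε : ℝ => p + ε • v := by fun_prop
      have ho := isOpen_interior (s := T) |>.preimage hc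
      have h0 : (0:ℝ) ∈ (fun ε : ℝ => p + ε • v) ⁻¹' interior T := by
        simpa using hp
      obtain ⟨δ, hδ, hb⟩ := Metric.isOpen_iff.1 ho 0 h0
      refine ⟨δ / 2, by positivity, interior_subset (hb ?_)⟩
      rw [Metric.mem_ball, dist_zero_right, Real.norm_eq_abs, abs_of_pos (by positivity)]
      linarith
    have hT := interior_subset hp
    obtain ⟨h1, h2, h3, h4, h5⟩ := hT
    obtain ⟨ε1, e1, q1⟩ := hdir (-1, 0)
    obtain ⟨ε2, e2, q2⟩ := hdir (1, 0)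
    obtain ⟨ε3, e3, q3⟩ := hdir (0, -1)
    obtain ⟨ε4, e4, q4⟩ := hdir (0, 1)
    obtain ⟨ε5, e5, q5⟩ := hdir (-1, 2)
    simp only [T, inT, mem_ofPred_eq, Prod.fst_add, Prod.smul_fst, Prod.snd_add, Prod.smul_snd,
      smul_eq_mul, mul_neg, mul_one, mul_zero] at q1 q2 q3 q4 q5
    refine ⟨by linarith [q1.1], by linarith [q2.2.1], by linarith [q3.2.2.1],
      by linarith [q4.2.2.2.1], ?_⟩
    by_contra hcon
    rw [not_or, not_lt, not_lt] at hcon
    rcases q5.2.2.2.2 with h | h <;> linarith [hcon.1, hcon.2]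
  · have ho : IsOpen {p : ℝ × ℝ | 0 < p.1 ∧ p.1 < 2 ∧ 0 < p.2 ∧ p.1 + p.2 < 4 ∧
        (1 < p.1 ∨ p.1 + p.2 < 3)} := by
      have h1 : IsOpen {p : ℝ × ℝ | 0 < p.1} := isOpen_lt continuous_const continuous_fst
      have h2 : IsOpen {p : ℝ × ℝ | p.1 < 2} := isOpen_lt continuous_fst continuous_const
      have h3 : IsOpen {p : ℝ × ℝ | 0 < p.2} := isOpen_lt continuous_const continuous_snd
      have h4 : IsOpen {p : ℝ × ℝ | p.1 + p.2 < 4} :=
        isOpen_lt (continuous_fst.add continuous_snd) continuous_const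
      have h5 : IsOpen {p : ℝ × ℝ | 1 < p.1} := isOpen_lt continuous_const continuous_fst
      have h6 : IsOpen {p : ℝ × ℝ | p.1 + p.2 < 3} :=
        isOpen_lt (continuous_fst.add continuous_snd) continuous_const
      exact h1.inter (h2.inter (h3.inter (h4.inter (h5.union h6))))
    refine interior_maximal ?_ ho
    rintro p ⟨h1, h2, h3, h4, h5⟩
    exact ⟨h1.le, h2.le, h3.le, h4.le, h5.imp le_of_lt le_of_lt⟩

/-- The six sides of the model piece. -/
def sides : Set (Set (ℝ × ℝ)) :=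
  {segment ℝ (0, 0) (0, 3), segment ℝ (0, 0) (2, 0), segment ℝ (2, 0) (2, 2),
    segment ℝ (1, 3) (2, 2), segment ℝ (1, 2) (1, 3), segment ℝ (0, 3) (1, 2)}

theorem mem_seg {x0 y0 x1 y1 : ℝ} (p : ℝ × ℝ) (t : ℝ) (h0 : 0 ≤ t) (h1 : t ≤ 1)
    (hx : p.1 = (1 - t) * x0 + t * x1) (hy : p.2 = (1 - t) * y0 + t * y1) :
    p ∈ segment ℝ (x0, y0) (x1, y1) := by
  refine ⟨1 - t, t, by linarith, h0, by ring, ?_⟩
  ext
  · simp [hx]
  · simp [hy]

theorem of_mem_seg {x0 y0 x1 y1 : ℝ} {p : ℝ × ℝ} (h : p ∈ segment ℝ (x0, y0) (x1, y1)) :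
    ∃ t : ℝ, 0 ≤ t ∧ t ≤ 1 ∧ p.1 = (1 - t) * x0 + t * x1 ∧ p.2 = (1 - t) * y0 + t * y1 := by
  obtain ⟨a, b, ha, hb, hab, rfl⟩ := h
  have : a = 1 - b := by linarith
  subst this
  exact ⟨b, hb, by linarith, by simp, by simp⟩

theorem T_frontier : frontier T = ⋃₀ sides := by
  rw [T_closed.frontier_eq, T_interior]
  ext p
  simp only [mem_sdiff, mem_ofPred_eq, sides, sUnion_insert, sUnion_singleton, mem_union]
  constructor
  · rintro ⟨⟨h1, h2, h3, h4, h5⟩, hn⟩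
    by_cases e1 : p.1 = 0
    · left
      have : p.2 ≤ 3 := by rcases h5 with h5 | h5 <;> linarith
      exact mem_seg p (p.2 / 3) (by positivity) (by linarith) (by rw [e1]; ring) (by ring)
    by_cases e2 : p.2 = 0
    · right; left
      exact mem_seg p (p.1 / 2) (by positivity) (by linarith) (by ring) (by rw [e2]; ring)
    by_cases e3 : p.1 = 2
    · right; right; left
      exact mem_seg p (p.2 / 2) (by positivity) (by linarith) (by rw [e3]; ring) (by ring)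
    by_cases e4 : p.1 + p.2 = 4
    · right; right; right; left
      have : 1 ≤ p.1 := by rcases h5 with h5 | h5 <;> linarith
      exact mem_seg p (p.1 - 1) (by linarith) (by linarith) (by ring) (by linarith)
    have k1 : 0 < p.1 := lt_of_le_of_ne h1 (Ne.symm e1)
    have k2 : 0 < p.2 := lt_of_le_of_ne h3 (Ne.symm e2)
    have k3 : p.1 < 2 := lt_of_le_of_ne h2 e3
    have k4 : p.1 + p.2 < 4 := lt_of_le_of_ne h4 e4
    have k5 : ¬ (1 < p.1 ∨ p.1 + p.2 < 3) := fun h => hn ⟨k1, k3, k2, k4, h⟩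
    rw [not_or, not_lt, not_lt] at k5
    rcases h5 with h5 | h5
    · right; right; right; right; left
      have e5 : p.1 = 1 := le_antisymm k5.1 h5
      exact mem_seg p (p.2 - 2) (by linarith [k5.2]) (by linarith) (by rw [e5]; ring) (by ring)
    · right; right; right; right; right
      have e5 : p.1 + p.2 = 3 := le_antisymm h5 k5.2
      exact mem_seg p p.1 k1.le k5.1 (by ring) (by linarith)
  · rintro (h | h | h | h | h | h) <;> obtain ⟨t, t0, t1, hx, hy⟩ := of_mem_seg h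
    · have hx' : p.1 = 0 := by linarith
      have hy' : p.2 = 3 * t := by linarith
      refine ⟨⟨by linarith, by linarith, by linarith, by linarith, Or.inr (by linarith)⟩, ?_⟩
      rintro ⟨h1, -⟩
      linarith
    · have hx' : p.1 = 2 * t := by linarith
      have hy' : p.2 = 0 := by linarith
      refine ⟨⟨by linarith, by linarith, by linarith, by linarith, Or.inr (by linarith)⟩, ?_⟩
      rintro ⟨-, -, h1, -⟩
      linarith
    · have hx' : p.1 = 2 := by linarith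
      have hy' : p.2 = 2 * t := by linarith
      refine ⟨⟨by linarith, by linarith, by linarith, by linarith, Or.inl (by linarith)⟩, ?_⟩
      rintro ⟨-, h1, -⟩
      linarith
    · have hx' : p.1 = 1 + t := by linarith
      have hy' : p.2 = 3 - t := by linarith
      refine ⟨⟨by linarith, by linarith, by linarith, by linarith, Or.inl (by linarith)⟩, ?_⟩
      rintro ⟨-, -, -, h1, -⟩
      linarith
    · have hx' : p.1 = 1 := by linarith
      have hy' : p.2 = 2 + t := by linarith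
      refine ⟨⟨by linarith, by linarith, by linarith, by linarith, Or.inl (by linarith)⟩, ?_⟩
      rintro ⟨-, -, -, -, h1 | h1⟩ <;> linarith
    · have hx' : p.1 = t := by linarith
      have hy' : p.2 = 3 - t := by linarith
      refine ⟨⟨by linarith, by linarith, by linarith, by linarith, Or.inr (by linarith)⟩, ?_⟩
      rintro ⟨-, -, -, -, h1 | h1⟩ <;> linarith

theorem T_star : StarConvex ℝ ((5/4, 1) : ℝ × ℝ) T := by
  rintro p ⟨h1, h2, h3, h4, h5⟩ a b ha hb hab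
  have ha' : a = 1 - b := by linarith
  subst ha'
  have hb1 : b ≤ 1 := by linarith
  simp only [T, inT, mem_ofPred_eq, Prod.fst_add, Prod.smul_fst, Prod.snd_add, Prod.smul_snd,
    smul_eq_mul]
  refine ⟨by nlinarith [mul_nonneg hb h1], by nlinarith [mul_le_mul_of_nonneg_left h2 hb],
    by nlinarith [mul_nonneg hb h3], by nlinarith [mul_le_mul_of_nonneg_left h4 hb], ?_⟩
  rcases h5 with h5 | h5
  · left
    nlinarith [mul_le_mul_of_nonneg_left h5 hb]
  · right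
    nlinarith [mul_le_mul_of_nonneg_left h5 hb]

/-! ### The sixty positions -/

/-- The map `(a, b) ↦ (m (a - s) + n (b - t), u (a - s) + v (b - t))`. -/
structure Dat where
  m : ℤ
  n : ℤ
  u : ℤ
  v : ℤ
  s : ℤ
  t : ℤ

def data : List Dat :=
  [⟨-1, 0, 0, -1, -8, 2⟩, ⟨-1, -1, 0, 1, -5, -3⟩, ⟨0, 1, 1, 0, -10, 2⟩, ⟨0, 1, 1, 0, -10, 4⟩,
   ⟨0, 1, 1, 0, -10, 6⟩, ⟨0, 1, 1, 0, -10, 8⟩, ⟨1, 1, 0, -1, -7, -3⟩, ⟨-1, -1, 0, 1, 0, -8⟩,
   ⟨0, -1, 1, 1, -2, -8⟩, ⟨0, -1, -1, 0, -5, 10⟩, ⟨0, -1, -1, 0, -5, 8⟩, ⟨0, -1, -1, 0, -5, 6⟩,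
   ⟨0, -1, -1, 0, -5, 4⟩, ⟨0, 1, -1, -1, 5, -10⟩, ⟨-1, 0, 0, -1, -6, 2⟩, ⟨-1, -1, 0, 1, -3, -3⟩,
   ⟨1, 1, 0, -1, -5, -3⟩, ⟨-1, -1, 0, 1, 2, -8⟩, ⟨-1, 0, 1, 1, -4, -2⟩, ⟨1, 0, -1, -1, -5, 4⟩,
   ⟨-1, 0, 1, 1, -2, -4⟩, ⟨1, 0, -1, -1, -3, 2⟩, ⟨-1, 0, 1, 1, 0, -6⟩, ⟨1, 0, -1, -1, -1, 0⟩,
   ⟨1, 1, 0, -1, -2, 1⟩, ⟨1, 0, 0, 1, 1, -4⟩, ⟨-1, -1, 1, 0, 0, -4⟩, ⟨0, -1, 1, 1, 0, -4⟩,
   ⟨0, -1, -1, 0, 5, -6⟩, ⟨0, -1, 1, 1, 3, -8⟩, ⟨1, 0, -1, -1, 3, -2⟩, ⟨0, 1, 1, 0, 5, -8⟩,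
   ⟨0, 1, -1, -1, 10, -10⟩, ⟨0, 1, 1, 0, 5, -6⟩, ⟨1, 1, -1, 0, 10, -10⟩, ⟨1, 1, -1, 0, 10, -8⟩,
   ⟨1, 1, -1, 0, 10, -6⟩, ⟨1, 1, -1, 0, 10, -4⟩, ⟨1, 1, -1, 0, 10, -2⟩, ⟨0, 1, 1, 0, 5, -4⟩,
   ⟨-1, 0, 1, 1, 5, -4⟩, ⟨-1, 0, 1, 1, 3, -2⟩, ⟨-1, 0, 1, 1, 1, 0⟩, ⟨-1, -1, 0, 1, 0, 1⟩,
   ⟨-1, 0, 0, -1, -3, 6⟩, ⟨-1, 0, 1, 1, -1, 2⟩, ⟨0, 1, 1, 0, -5, 6⟩, ⟨0, 1, 1, 0, -5, 8⟩,
   ⟨0, -1, -1, 0, 0, 8⟩, ⟨0, -1, -1, 0, 0, 10⟩, ⟨0, 1, -1, -1, 2, 4⟩, ⟨0, 1, -1, -1, 4, 2⟩,
   ⟨0, 1, -1, -1, 6, 0⟩, ⟨0, 1, -1, -1, 8, -2⟩, ⟨-1, -1, 1, 0, 5, 3⟩, ⟨-1, -1, 1, 0, 5, 5⟩,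
   ⟨-1, -1, 1, 0, 0, 10⟩, ⟨-1, -1, 1, 0, 0, 8⟩, ⟨1, 1, -1, 0, 5, 3⟩, ⟨1, 1, -1, 0, 5, 1⟩]

def dat (i : Fin 60) : Dat := data.getD i.1 ⟨1, 0, 0, 1, 0, 0⟩

def okRow (m n : ℤ) : Bool :=
  (m == 1 && n == 0) || (m == -1 && n == 0) || (m == 0 && n == 1) || (m == 0 && n == -1) ||
    (m == 1 && n == 1) || (m == -1 && n == -1)

theorem okRow_iff (m n : ℤ) : okRow m n = true ↔ (m = 1 ∧ n = 0) ∨ (m = -1 ∧ n = 0) ∨
    (m = 0 ∧ n = 1) ∨ (m = 0 ∧ n = -1) ∨ (m = 1 ∧ n = 1) ∨ (m = -1 ∧ n = -1) := by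
  simp only [okRow, Bool.or_eq_true, Bool.and_eq_true, beq_iff_eq]
  tauto

def Dat.det (d : Dat) : ℤ := d.m * d.v - d.n * d.u

def lo (m n : ℤ) : ℤ :=
  if m = 1 ∨ n = 1 then 0 else (if n = 0 then -2 else if m = 0 then -3 else -4)

def hi (m n : ℤ) : ℤ :=
  if m = 1 ∨ n = 1 then (if n = 0 then 2 else if m = 0 then 3 else 4) else 0

def good (d : Dat) : Bool :=
  okRow d.m d.n && okRow d.u d.v && okRow (d.m + d.u) (d.n + d.v) &&
  okRow (d.det * d.v) (-(d.det * d.n)) && okRow (-(d.det * d.u)) (d.det * d.m) &&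
  okRow (d.det * d.v - d.det * d.u) (d.det * d.m - d.det * d.n) &&
  decide (d.det * d.det = 1) &&
  decide (d.m * d.m + d.m * d.u + d.u * d.u = 1) &&
  decide (2 * (d.m * d.n) + d.m * d.v + d.n * d.u + 2 * (d.u * d.v) = 1) &&
  decide (d.n * d.n + d.n * d.v + d.v * d.v = 1) &&
  decide (-10 ≤ d.s + lo (d.det * d.v) (-(d.det * d.n))) &&
  decide (d.s + hi (d.det * d.v) (-(d.det * d.n)) ≤ 10) &&
  decide (-10 ≤ d.t + lo (-(d.det * d.u)) (d.det * d.m)) &&
  decide (d.t + hi (-(d.det * d.u)) (d.det * d.m) ≤ 10) &&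
  decide (-10 ≤ d.s + d.t + lo (d.det * d.v - d.det * d.u) (d.det * d.m - d.det * d.n)) &&
  decide (d.s + d.t + hi (d.det * d.v - d.det * d.u) (d.det * d.m - d.det * d.n) ≤ 10)

theorem good_dat : ∀ i : Fin 60, good (dat i) = true := by decide +kernel

def flr (m n s t i j k : ℤ) : ℤ :=
  if n = 0 then (if m = 1 then i - s else s - i - 1)
  else if m = 0 then (if n = 1 then j - t else t - j - 1)
  else (if m = 1 then k - (s + t) else (s + t) - k - 1)

def cellIn (d : Dat) (i j k : ℤ) : Bool :=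
  decide (0 ≤ flr d.m d.n d.s d.t i j k) && decide (flr d.m d.n d.s d.t i j k ≤ 1) &&
  decide (0 ≤ flr d.u d.v d.s d.t i j k) &&
  decide (flr (d.m + d.u) (d.n + d.v) d.s d.t i j k ≤ 3) &&
  (decide (1 ≤ flr d.m d.n d.s d.t i j k) ||
    decide (flr (d.m + d.u) (d.n + d.v) d.s d.t i j k ≤ 2))

def check : Bool :=
  (List.range 20).all fun i => (List.range 20).all fun j => (List.range 2).all fun e =>
    !(decide (-10 ≤ ((i:ℤ) - 10) + ((j:ℤ) - 10) + (e:ℤ)) &&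
      decide (((i:ℤ) - 10) + ((j:ℤ) - 10) + (e:ℤ) ≤ 9)) ||
    (((List.finRange 60).filter fun l => cellIn (dat l) ((i:ℤ) - 10) ((j:ℤ) - 10)
      (((i:ℤ) - 10) + ((j:ℤ) - 10) + (e:ℤ))).length == 1)

theorem check_true : check = true := by decide +kernel

/-! ### The affine maps -/

noncomputable def Dat.app (d : Dat) (p : ℝ × ℝ) : ℝ × ℝ :=
  (d.m * (p.1 - d.s) + d.n * (p.2 - d.t), d.u * (p.1 - d.s) + d.v * (p.2 - d.t))

noncomputable def Dat.bck (d : Dat) (q : ℝ × ℝ) : ℝ × ℝ :=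
  (d.det * (d.v * q.1 - d.n * q.2) + d.s, d.det * (-(d.u * q.1) + d.m * q.2) + d.t)

theorem good_facts {d : Dat} (h : good d = true) :
    okRow d.m d.n = true ∧ okRow d.u d.v = true ∧ okRow (d.m + d.u) (d.n + d.v) = true ∧
    okRow (d.det * d.v) (-(d.det * d.n)) = true ∧ okRow (-(d.det * d.u)) (d.det * d.m) = true ∧
    okRow (d.det * d.v - d.det * d.u) (d.det * d.m - d.det * d.n) = true ∧
    d.det * d.det = 1 ∧
    d.m * d.m + d.m * d.u + d.u * d.u = 1 ∧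
    2 * (d.m * d.n) + d.m * d.v + d.n * d.u + 2 * (d.u * d.v) = 1 ∧
    d.n * d.n + d.n * d.v + d.v * d.v = 1 ∧
    -10 ≤ d.s + lo (d.det * d.v) (-(d.det * d.n)) ∧
    d.s + hi (d.det * d.v) (-(d.det * d.n)) ≤ 10 ∧
    -10 ≤ d.t + lo (-(d.det * d.u)) (d.det * d.m) ∧
    d.t + hi (-(d.det * d.u)) (d.det * d.m) ≤ 10 ∧
    -10 ≤ d.s + d.t + lo (d.det * d.v - d.det * d.u) (d.det * d.m - d.det * d.n) ∧
    d.s + d.t + hi (d.det * d.v - d.det * d.u) (d.det * d.m - d.det * d.n) ≤ 10 := by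
  simp only [good, Bool.and_eq_true, decide_eq_true_eq] at h
  tauto

theorem det_real (d : Dat) : (d.det : ℝ) = d.m * d.v - d.n * d.u := by
  unfold Dat.det
  push_cast
  ring

theorem det_sq {d : Dat} (h : good d = true) : (d.det : ℝ) * d.det = 1 := by
  exact_mod_cast (good_facts h).2.2.2.2.2.2.1

theorem bck_app {d : Dat} (h : good d = true) (p : ℝ × ℝ) : d.bck (d.app p) = p := by
  have h1 := det_sq h
  have h2 := det_real d
  ext
  · show (d.det : ℝ) * (d.v * (d.m * (p.1 - d.s) + d.n * (p.2 - d.t)) -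
      d.n * (d.u * (p.1 - d.s) + d.v * (p.2 - d.t))) + d.s = p.1
    have : (d.det : ℝ) * (d.v * (d.m * (p.1 - d.s) + d.n * (p.2 - d.t)) -
      d.n * (d.u * (p.1 - d.s) + d.v * (p.2 - d.t))) + d.s =
      (d.det : ℝ) * d.det * (p.1 - d.s) + d.s := by
      conv_rhs => rw [mul_assoc, h2]
      rw [h2]; ring
    rw [this, h1]; ring
  · show (d.det : ℝ) * (-(d.u * (d.m * (p.1 - d.s) + d.n * (p.2 - d.t))) +
      d.m * (d.u * (p.1 - d.s) + d.v * (p.2 - d.t))) + d.t = p.2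
    have : (d.det : ℝ) * (-(d.u * (d.m * (p.1 - d.s) + d.n * (p.2 - d.t))) +
      d.m * (d.u * (p.1 - d.s) + d.v * (p.2 - d.t))) + d.t =
      (d.det : ℝ) * d.det * (p.2 - d.t) + d.t := by
      conv_rhs => rw [mul_assoc, h2]
      rw [h2]; ring
    rw [this, h1]; ring

theorem app_bck {d : Dat} (h : good d = true) (q : ℝ × ℝ) : d.app (d.bck q) = q := by
  have h1 := det_sq h
  have h2 := det_real d
  ext
  · show (d.m : ℝ) * ((d.det * (d.v * q.1 - d.n * q.2) + d.s) - d.s) +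
      d.n * ((d.det * (-(d.u * q.1) + d.m * q.2) + d.t) - d.t) = q.1
    have : (d.m : ℝ) * ((d.det * (d.v * q.1 - d.n * q.2) + d.s) - d.s) +
      d.n * ((d.det * (-(d.u * q.1) + d.m * q.2) + d.t) - d.t) =
      (d.det : ℝ) * d.det * q.1 := by
      conv_rhs => rw [mul_assoc, h2]
      rw [h2]; ring
    rw [this, h1]; ring
  · show (d.u : ℝ) * ((d.det * (d.v * q.1 - d.n * q.2) + d.s) - d.s) +
      d.v * ((d.det * (-(d.u * q.1) + d.m * q.2) + d.t) - d.t) = q.2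
    have : (d.u : ℝ) * ((d.det * (d.v * q.1 - d.n * q.2) + d.s) - d.s) +
      d.v * ((d.det * (-(d.u * q.1) + d.m * q.2) + d.t) - d.t) =
      (d.det : ℝ) * d.det * q.2 := by
      conv_rhs => rw [mul_assoc, h2]
      rw [h2]; ring
    rw [this, h1]; ring

/-- The sets covered by the sixty pieces, in triangular coordinates. -/
def Ti (l : Fin 60) : Set (ℝ × ℝ) := {p | (dat l).app p ∈ T}

def Hx : Set (ℝ × ℝ) :=
  {p | -10 ≤ p.1 ∧ p.1 ≤ 10 ∧ -10 ≤ p.2 ∧ p.2 ≤ 10 ∧ -10 ≤ p.1 + p.2 ∧ p.1 + p.2 ≤ 10}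

theorem row_bound {m n : ℤ} (h : okRow m n = true) {x y : ℝ} (hT : inT x y) :
    (lo m n : ℝ) ≤ m * x + n * y ∧ (m * x + n * y : ℝ) ≤ hi m n := by
  obtain ⟨h1, h2, h3, h4, h5⟩ := hT
  have h6 : y ≤ 3 := by rcases h5 with h5 | h5 <;> linarith
  rw [okRow_iff] at h
  rcases h with ⟨rfl, rfl⟩ | ⟨rfl, rfl⟩ | ⟨rfl, rfl⟩ | ⟨rfl, rfl⟩ | ⟨rfl, rfl⟩ | ⟨rfl, rfl⟩ <;>
    constructor <;> norm_num [lo, hi] <;> linarith

theorem Ti_sub (l : Fin 60) : Ti l ⊆ Hx := by
  intro p hp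
  have hg := good_dat l
  obtain ⟨-, -, -, r1, r2, r3, -, -, -, -, b1, b2, b3, b4, b5, b6⟩ := good_facts hg
  have hp' : inT ((dat l).app p).1 ((dat l).app p).2 := hp
  have hb := bck_app hg p
  set q := (dat l).app p with hq
  have e1 : p.1 = (dat l).det * ((dat l).v * q.1 - (dat l).n * q.2) + (dat l).s := by
    conv_lhs => rw [← hb]
    rfl
  have e2 : p.2 = (dat l).det * (-((dat l).u * q.1) + (dat l).m * q.2) + (dat l).t := by
    conv_lhs => rw [← hb]
    rfl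
  have k1 := row_bound r1 hp'
  have k2 := row_bound r2 hp'
  have k3 := row_bound r3 hp'
  push_cast at k1 k2 k3
  have b1' : (-10 : ℝ) ≤ (dat l).s + lo ((dat l).det * (dat l).v) (-((dat l).det * (dat l).n)) := by
    exact_mod_cast b1
  have b2' : ((dat l).s : ℝ) + hi ((dat l).det * (dat l).v) (-((dat l).det * (dat l).n)) ≤ 10 := by
    exact_mod_cast b2
  have b3' : (-10 : ℝ) ≤ (dat l).t + lo (-((dat l).det * (dat l).u)) ((dat l).det * (dat l).m) := by
    exact_mod_cast b3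
  have b4' : ((dat l).t : ℝ) + hi (-((dat l).det * (dat l).u)) ((dat l).det * (dat l).m) ≤ 10 := by
    exact_mod_cast b4
  have b5' : (-10 : ℝ) ≤ (dat l).s + (dat l).t + lo ((dat l).det * (dat l).v -
      (dat l).det * (dat l).u) ((dat l).det * (dat l).m - (dat l).det * (dat l).n) := by
    exact_mod_cast b5
  have b6' : ((dat l).s : ℝ) + (dat l).t + hi ((dat l).det * (dat l).v -
      (dat l).det * (dat l).u) ((dat l).det * (dat l).m - (dat l).det * (dat l).n) ≤ 10 := by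
    exact_mod_cast b6
  refine ⟨?_, ?_, ?_, ?_, ?_, ?_⟩
  · rw [e1]; linarith [k1.1, k1.2]
  · rw [e1]; linarith [k1.1, k1.2]
  · rw [e2]; linarith [k2.1, k2.2]
  · rw [e2]; linarith [k2.1, k2.2]
  · rw [e1, e2]; linarith [k3.1, k3.2]
  · rw [e1, e2]; linarith [k3.1, k3.2]

/-! ### Generic points and cells -/

def gen : Set (ℝ × ℝ) :=
  {p | (∀ z : ℤ, p.1 ≠ z) ∧ (∀ z : ℤ, p.2 ≠ z) ∧ (∀ z : ℤ, p.1 + p.2 ≠ z)}

theorem gen_dense : Dense gen := by
  set D : Set ℝ := (Set.range ((↑) : ℤ → ℝ))ᶜ with hD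
  have hDo : IsOpen D := (Int.isClosedEmbedding_coe_real.isClosed_range).isOpen_compl
  have hDd : Dense D := (Set.countable_range _).dense_compl ℝ
  have hadd : IsOpenMap fun p : ℝ × ℝ => p.1 + p.2 := by
    have := LinearMap.isOpenMap_of_finiteDimensional
      (LinearMap.fst ℝ ℝ ℝ + LinearMap.snd ℝ ℝ ℝ) (fun y => ⟨(y, 0), by simp⟩)
    exact this
  have h1 : Dense ((fun p : ℝ × ℝ => p.1) ⁻¹' D) := hDd.preimage isOpenMap_fst
  have h2 : Dense ((fun p : ℝ × ℝ => p.2) ⁻¹' D) := hDd.preimage isOpenMap_snd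
  have h3 : Dense ((fun p : ℝ × ℝ => p.1 + p.2) ⁻¹' D) := hDd.preimage hadd
  have o1 : IsOpen ((fun p : ℝ × ℝ => p.1) ⁻¹' D) := hDo.preimage continuous_fst
  have o2 : IsOpen ((fun p : ℝ × ℝ => p.2) ⁻¹' D) := hDo.preimage continuous_snd
  have h12 := h1.inter_of_isOpen_left h2 o1
  have h123 := h12.inter_of_isOpen_left h3 (o1.inter o2)
  refine h123.mono ?_
  rintro p ⟨⟨a1, a2⟩, a3⟩
  exact ⟨fun z hz => a1 ⟨z, hz.symm⟩, fun z hz => a2 ⟨z, hz.symm⟩, fun z hz => a3 ⟨z, hz.symm⟩⟩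

theorem floor_strict {x : ℝ} (h : ∀ z : ℤ, x ≠ z) : (⌊x⌋ : ℝ) < x ∧ x < ⌊x⌋ + 1 :=
  ⟨lt_of_le_of_ne (Int.floor_le x) (Ne.symm (h _)), Int.lt_floor_add_one x⟩

theorem flr_spec {m n : ℤ} (h : okRow m n = true) (s t i j k : ℤ) {a b : ℝ}
    (ha : (i : ℝ) < a ∧ a < i + 1) (hb : (j : ℝ) < b ∧ b < j + 1)
    (hk : (k : ℝ) < a + b ∧ a + b < k + 1) :
    (flr m n s t i j k : ℝ) < m * (a - s) + n * (b - t) ∧
      (m * (a - s) + n * (b - t) : ℝ) < flr m n s t i j k + 1 := by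
  obtain ⟨a1, a2⟩ := ha
  obtain ⟨b1, b2⟩ := hb
  obtain ⟨k1, k2⟩ := hk
  rw [okRow_iff] at h
  rcases h with ⟨rfl, rfl⟩ | ⟨rfl, rfl⟩ | ⟨rfl, rfl⟩ | ⟨rfl, rfl⟩ | ⟨rfl, rfl⟩ | ⟨rfl, rfl⟩ <;>
    constructor <;> norm_num [flr] <;> linarith

theorem cell_mem (l : Fin 60) {p : ℝ × ℝ} (hp : p ∈ gen) :
    p ∈ Ti l ↔ cellIn (dat l) ⌊p.1⌋ ⌊p.2⌋ ⌊p.1 + p.2⌋ = true := by
  obtain ⟨r1, r2, r3, -⟩ := good_facts (good_dat l)
  set d := dat l with hd
  have h1 := flr_spec r1 d.s d.t ⌊p.1⌋ ⌊p.2⌋ ⌊p.1 + p.2⌋ (floor_strict hp.1)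
    (floor_strict hp.2.1) (floor_strict hp.2.2)
  have h2 := flr_spec r2 d.s d.t ⌊p.1⌋ ⌊p.2⌋ ⌊p.1 + p.2⌋ (floor_strict hp.1)
    (floor_strict hp.2.1) (floor_strict hp.2.2)
  have h3 := flr_spec r3 d.s d.t ⌊p.1⌋ ⌊p.2⌋ ⌊p.1 + p.2⌋ (floor_strict hp.1)
    (floor_strict hp.2.1) (floor_strict hp.2.2)
  show inT (d.app p).1 (d.app p).2 ↔ _
  unfold cellIn
  set A := flr d.m d.n d.s d.t ⌊p.1⌋ ⌊p.2⌋ ⌊p.1 + p.2⌋
  set B := flr d.u d.v d.s d.t ⌊p.1⌋ ⌊p.2⌋ ⌊p.1 + p.2⌋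
  set S := flr (d.m + d.u) (d.n + d.v) d.s d.t ⌊p.1⌋ ⌊p.2⌋ ⌊p.1 + p.2⌋
  have hsum : (d.app p).1 + (d.app p).2 =
      ((d.m + d.u : ℤ) : ℝ) * (p.1 - d.s) + ((d.n + d.v : ℤ) : ℝ) * (p.2 - d.t) := by
    show (d.m * (p.1 - d.s) + d.n * (p.2 - d.t) : ℝ) +
      (d.u * (p.1 - d.s) + d.v * (p.2 - d.t)) = _
    push_cast
    ring
  have h1' : (A : ℝ) < (d.app p).1 ∧ (d.app p).1 < A + 1 := h1
  have h2' : (B : ℝ) < (d.app p).2 ∧ (d.app p).2 < B + 1 := h2
  have h3' : (S : ℝ) < (d.app p).1 + (d.app p).2 ∧ (d.app p).1 + (d.app p).2 < S + 1 := by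
    rw [hsum]; exact h3
  generalize (d.app p).1 = x at h1' h3' ⊢
  generalize (d.app p).2 = y at h2' h3' ⊢
  simp only [Bool.and_eq_true, Bool.or_eq_true, decide_eq_true_eq]
  -- comparisons
  have cle : ∀ (Z N : ℤ) (z : ℝ), (Z : ℝ) < z ∧ z < Z + 1 → ((N : ℝ) ≤ z ↔ N ≤ Z) := by
    intro Z N z hz
    constructor
    · intro h
      have : (N : ℝ) < Z + 1 := lt_of_le_of_lt h hz.2
      have : N < Z + 1 := by exact_mod_cast this
      omega
    · intro h
      have : (N : ℝ) ≤ Z := by exact_mod_cast h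
      linarith [hz.1]
  have cge : ∀ (Z N : ℤ) (z : ℝ), (Z : ℝ) < z ∧ z < Z + 1 → (z ≤ (N : ℝ) ↔ Z ≤ N - 1) := by
    intro Z N z hz
    constructor
    · intro h
      have : (Z : ℝ) < N := lt_of_lt_of_le hz.1 h
      have : Z < N := by exact_mod_cast this
      omega
    · intro h
      have : (Z : ℝ) ≤ ((N - 1 : ℤ) : ℝ) := by exact_mod_cast h
      push_cast at this
      linarith [hz.2]
  have c1 := cle A 0 x h1'
  have c2 := cge A 2 x h1'
  have c3 := cle B 0 y h2'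
  have c4 := cge S 4 (x + y) h3'
  have c5 := cle A 1 x h1'
  have c6 := cge S 3 (x + y) h3'
  push_cast at c1 c2 c3 c4 c5 c6
  unfold inT
  rw [c1, c2, c3, c4, c5, c6]
  tauto

theorem check_spec (i j e : ℕ) (hi : i < 20) (hj : j < 20) (he : e < 2)
    (h1 : -10 ≤ ((i:ℤ) - 10) + ((j:ℤ) - 10) + (e:ℤ))
    (h2 : ((i:ℤ) - 10) + ((j:ℤ) - 10) + (e:ℤ) ≤ 9) :
    ((List.finRange 60).filter fun l => cellIn (dat l) ((i:ℤ) - 10) ((j:ℤ) - 10)
      (((i:ℤ) - 10) + ((j:ℤ) - 10) + (e:ℤ))).length = 1 := by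
  have h := check_true
  unfold check at h
  rw [List.all_eq_true] at h
  have ha := h i (List.mem_range.2 hi)
  rw [List.all_eq_true] at ha
  have hb := ha j (List.mem_range.2 hj)
  rw [List.all_eq_true] at hb
  have hc := hb e (List.mem_range.2 he)
  rw [Bool.or_eq_true, decide_eq_true h1, decide_eq_true h2] at hc
  rcases hc with hc | hc
  · simp at hc
  · exact beq_iff_eq.1 hc

theorem exists_unique_tile {p : ℝ × ℝ} (hp : p ∈ gen) (hH : p ∈ Hx) :
    ∃ l : Fin 60, p ∈ Ti l ∧ ∀ l' : Fin 60, p ∈ Ti l' → l' = l := by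
  obtain ⟨g1, g2, g3⟩ := hp
  obtain ⟨x1, x2, y1, y2, z1, z2⟩ := hH
  obtain ⟨f1, f2⟩ := floor_strict g1
  obtain ⟨f3, f4⟩ := floor_strict g2
  obtain ⟨f5, f6⟩ := floor_strict g3
  have cx1 : -10 ≤ ⌊p.1⌋ := Int.le_floor.2 (by push_cast; exact x1)
  have cx2 : ⌊p.1⌋ < 10 := by
    have : (⌊p.1⌋ : ℝ) < 10 := by linarith
    exact_mod_cast this
  have cy1 : -10 ≤ ⌊p.2⌋ := Int.le_floor.2 (by push_cast; exact y1)
  have cy2 : ⌊p.2⌋ < 10 := by
    have : (⌊p.2⌋ : ℝ) < 10 := by linarith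
    exact_mod_cast this
  have cz1 : -10 ≤ ⌊p.1 + p.2⌋ := Int.le_floor.2 (by push_cast; exact z1)
  have cz2 : ⌊p.1 + p.2⌋ < 10 := by
    have : (⌊p.1 + p.2⌋ : ℝ) < 10 := by linarith
    exact_mod_cast this
  have ck1 : ⌊p.1⌋ + ⌊p.2⌋ < ⌊p.1 + p.2⌋ + 1 := by
    have : (⌊p.1⌋ : ℝ) + ⌊p.2⌋ < ⌊p.1 + p.2⌋ + 1 := by linarith
    exact_mod_cast this
  have ck2 : ⌊p.1 + p.2⌋ < ⌊p.1⌋ + ⌊p.2⌋ + 2 := by
    have : (⌊p.1 + p.2⌋ : ℝ) < ⌊p.1⌋ + ⌊p.2⌋ + 2 := by linarith
    exact_mod_cast this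
  have hcell := fun l => cell_mem l (p := p) ⟨g1, g2, g3⟩
  generalize ⌊p.1⌋ = i at *
  generalize ⌊p.2⌋ = j at *
  generalize ⌊p.1 + p.2⌋ = k at *
  obtain ⟨i', hi'⟩ : ∃ i' : ℕ, i = (i' : ℤ) - 10 := ⟨(i + 10).toNat, by omega⟩
  obtain ⟨j', hj'⟩ : ∃ j' : ℕ, j = (j' : ℤ) - 10 := ⟨(j + 10).toNat, by omega⟩
  obtain ⟨e, he⟩ : ∃ e : ℕ, k = i + j + (e : ℤ) := ⟨(k - i - j).toNat, by omega⟩
  have hs := check_spec i' j' e (by omega) (by omega) (by omega) (by omega) (by omega)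
  rw [← hi', ← hj', ← he] at hs
  rw [List.length_eq_one_iff] at hs
  obtain ⟨l, hl⟩ := hs
  have hmem : ∀ l' : Fin 60, cellIn (dat l') i j k = true ↔ l' = l := by
    intro l'
    have : l' ∈ (List.finRange 60).filter (fun l => cellIn (dat l) i j k) ↔ l' = l := by
      rw [hl]; simp
    rw [List.mem_filter] at this
    rw [← this]
    constructor
    · intro h; exact ⟨List.mem_finRange _, h⟩
    · intro h; exact h.2
  refine ⟨l, (hcell l).2 ((hmem l).2 rfl), fun l' hl' => (hmem l').1 ((hcell l').1 hl')⟩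

theorem Hx_convex : Convex ℝ Hx := by
  rintro p ⟨h1, h2, h3, h4, h5, h6⟩ q ⟨k1, k2, k3, k4, k5, k6⟩ a b ha hb hab
  have ha' : a = 1 - b := by linarith
  subst ha'
  simp only [Hx, mem_ofPred_eq, Prod.fst_add, Prod.smul_fst, Prod.snd_add, Prod.smul_snd,
    smul_eq_mul]
  refine ⟨?_, ?_, ?_, ?_, ?_, ?_⟩
  · nlinarith [mul_le_mul_of_nonneg_left h1 ha, mul_le_mul_of_nonneg_left k1 hb]
  · nlinarith [mul_le_mul_of_nonneg_left h2 ha, mul_le_mul_of_nonneg_left k2 hb]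
  · nlinarith [mul_le_mul_of_nonneg_left h3 ha, mul_le_mul_of_nonneg_left k3 hb]
  · nlinarith [mul_le_mul_of_nonneg_left h4 ha, mul_le_mul_of_nonneg_left k4 hb]
  · nlinarith [mul_le_mul_of_nonneg_left h5 ha, mul_le_mul_of_nonneg_left k5 hb]
  · nlinarith [mul_le_mul_of_nonneg_left h6 ha, mul_le_mul_of_nonneg_left k6 hb]

theorem Hx_closed : IsClosed Hx := by
  have h1 : IsClosed {p : ℝ × ℝ | -10 ≤ p.1} := isClosed_le continuous_const continuous_fst
  have h2 : IsClosed {p : ℝ × ℝ | p.1 ≤ 10} := isClosed_le continuous_fst continuous_const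
  have h3 : IsClosed {p : ℝ × ℝ | -10 ≤ p.2} := isClosed_le continuous_const continuous_snd
  have h4 : IsClosed {p : ℝ × ℝ | p.2 ≤ 10} := isClosed_le continuous_snd continuous_const
  have h5 : IsClosed {p : ℝ × ℝ | -10 ≤ p.1 + p.2} :=
    isClosed_le continuous_const (continuous_fst.add continuous_snd)
  have h6 : IsClosed {p : ℝ × ℝ | p.1 + p.2 ≤ 10} :=
    isClosed_le (continuous_fst.add continuous_snd) continuous_const
  exact h1.inter (h2.inter (h3.inter (h4.inter (h5.inter h6))))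

theorem Hx_int : ((0, 0) : ℝ × ℝ) ∈ interior Hx := by
  rw [mem_interior]
  refine ⟨Ioo (-1) 1 ×ˢ Ioo (-1) 1, ?_, isOpen_Ioo.prod isOpen_Ioo, ?_⟩
  · rintro p ⟨⟨h1, h2⟩, ⟨h3, h4⟩⟩
    exact ⟨by linarith, by linarith, by linarith, by linarith, by linarith, by linarith⟩
  · constructor <;> constructor <;> norm_num

theorem app_continuous (d : Dat) : Continuous d.app := by
  unfold Dat.app
  fun_prop

theorem bck_continuous (d : Dat) : Continuous d.bck := by
  unfold Dat.bck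
  fun_prop

theorem Ti_closed (l : Fin 60) : IsClosed (Ti l) := T_closed.preimage (app_continuous _)

theorem cover_Hx : ⋃ l, Ti l = Hx := by
  apply subset_antisymm
  · exact iUnion_subset Ti_sub
  · have hcl : IsClosed (⋃ l, Ti l) := isClosed_iUnion_of_finite Ti_closed
    have h1 : Hx = closure (interior Hx) := by
      rw [Hx_convex.closure_interior_eq_closure_of_nonempty_interior ⟨_, Hx_int⟩,
        Hx_closed.closure_eq]
    have h2 : interior Hx ⊆ closure (interior Hx ∩ gen) :=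
      gen_dense.open_subset_closure_inter isOpen_interior
    have h3 : interior Hx ∩ gen ⊆ ⋃ l, Ti l := by
      rintro p ⟨hp, hg⟩
      obtain ⟨l, hl, -⟩ := exists_unique_tile hg (interior_subset hp)
      exact mem_iUnion.2 ⟨l, hl⟩
    have h4 : closure (interior Hx ∩ gen) ⊆ ⋃ l, Ti l := closure_minimal h3 hcl
    rw [h1]
    exact closure_minimal (h2.trans h4) hcl

theorem disjoint_Ti (l l' : Fin 60) (h : l ≠ l') : Disjoint (interior (Ti l)) (interior (Ti l')) := by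
  rw [Set.disjoint_iff_inter_eq_empty, ← Set.not_nonempty_iff_eq_empty]
  intro hne
  obtain ⟨p, ⟨hp1, hp2⟩, hp3⟩ := gen_dense.inter_open_nonempty _
    (isOpen_interior.inter isOpen_interior) hne
  obtain ⟨l0, -, hu⟩ := exists_unique_tile hp3 (Ti_sub l (interior_subset hp1))
  exact h ((hu l (interior_subset hp1)).trans (hu l' (interior_subset hp2)).symm)

/-! ### Passing to the plane -/

/-- Triangular coordinates with unit `r`. -/
noncomputable def Lq (r : ℝ) (hr : r ≠ 0) : (ℝ × ℝ) ≃ₗ[ℝ] Plane where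
  toFun p := !₂[r * (p.1 + p.2 / 2), r * (√3 / 2 * p.2)]
  map_add' p q := by ext i; fin_cases i <;> simp <;> ring
  map_smul' c p := by ext i; fin_cases i <;> simp <;> ring
  invFun w := (w 0 / r - w 1 / (r * √3), 2 * w 1 / (r * √3))
  left_inv p := by
    have h3 : √3 ≠ 0 := by positivity
    ext
    · simp
      field_simp
      ring
    · simp
      field_simp
  right_inv w := by
    have h3 : √3 ≠ 0 := by positivity
    ext i
    fin_cases i
    · simp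
      field_simp
      ring
    · simp
      field_simp

theorem dist_Lq (r : ℝ) (hr : r ≠ 0) (p q : ℝ × ℝ) : dist (Lq r hr p) (Lq r hr q) =
    √(r ^ 2 * ((p.1 - q.1) ^ 2 + (p.1 - q.1) * (p.2 - q.2) + (p.2 - q.2) ^ 2)) := by
  rw [EuclideanSpace.dist_eq, Fin.sum_univ_two]
  congr 1
  have h3 : √3 ^ 2 = (3 : ℝ) := Real.sq_sqrt (by norm_num)
  have e0 : (Lq r hr p) 0 - (Lq r hr q) 0 = r * ((p.1 - q.1) + (p.2 - q.2) / 2) := by
    simp [Lq]; ring
  have e1 : (Lq r hr p) 1 - (Lq r hr q) 1 = r * (√3 / 2 * (p.2 - q.2)) := by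
    simp [Lq]; ring
  rw [Real.dist_eq, Real.dist_eq, sq_abs, sq_abs, e0, e1]
  have : (r * (√3 / 2 * (p.2 - q.2))) ^ 2 = r ^ 2 * (√3 ^ 2 / 4 * (p.2 - q.2) ^ 2) := by ring
  rw [this, h3]
  ring

theorem app_form {d : Dat} (h : good d = true) (p q : ℝ × ℝ) :
    ((d.app p).1 - (d.app q).1) ^ 2 +
      ((d.app p).1 - (d.app q).1) * ((d.app p).2 - (d.app q).2) +
      ((d.app p).2 - (d.app q).2) ^ 2 =
    (p.1 - q.1) ^ 2 + (p.1 - q.1) * (p.2 - q.2) + (p.2 - q.2) ^ 2 := by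
  obtain ⟨-, -, -, -, -, -, -, f1, f2, f3, -⟩ := good_facts h
  have f1' : (d.m : ℝ) * d.m + d.m * d.u + d.u * d.u = 1 := by exact_mod_cast f1
  have f2' : (2 : ℝ) * (d.m * d.n) + d.m * d.v + d.n * d.u + 2 * (d.u * d.v) = 1 := by
    exact_mod_cast f2
  have f3' : (d.n : ℝ) * d.n + d.n * d.v + d.v * d.v = 1 := by exact_mod_cast f3
  have e1 : (d.app p).1 - (d.app q).1 = d.m * (p.1 - q.1) + d.n * (p.2 - q.2) := by
    unfold Dat.app; ring
  have e2 : (d.app p).2 - (d.app q).2 = d.u * (p.1 - q.1) + d.v * (p.2 - q.2) := by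
    unfold Dat.app; ring
  rw [e1, e2]
  linear_combination (p.1 - q.1) ^ 2 * f1' + (p.1 - q.1) * (p.2 - q.2) * f2' +
    (p.2 - q.2) ^ 2 * f3'

/-- The isometry of the plane that takes the piece number `l` to the model piece. -/
noncomputable def G (r : ℝ) (hr : r ≠ 0) (l : Fin 60) : Plane ≃ᵢ Plane where
  toFun x := Lq r hr ((dat l).app ((Lq r hr).symm x))
  invFun x := Lq r hr ((dat l).bck ((Lq r hr).symm x))
  left_inv x := by
    show Lq r hr ((dat l).bck ((Lq r hr).symm (Lq r hr ((dat l).app ((Lq r hr).symm x))))) = x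
    rw [LinearEquiv.symm_apply_apply, bck_app (good_dat l), LinearEquiv.apply_symm_apply]
  right_inv x := by
    show Lq r hr ((dat l).app ((Lq r hr).symm (Lq r hr ((dat l).bck ((Lq r hr).symm x))))) = x
    rw [LinearEquiv.symm_apply_apply, app_bck (good_dat l), LinearEquiv.apply_symm_apply]
  isometry_toFun := by
    refine Isometry.of_dist_eq fun x y => ?_
    rw [dist_Lq, app_form (good_dat l)]
    conv_rhs => rw [← LinearEquiv.apply_symm_apply (Lq r hr) x,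
      ← LinearEquiv.apply_symm_apply (Lq r hr) y]
    rw [dist_Lq]

noncomputable def Lh (r : ℝ) (hr : r ≠ 0) : (ℝ × ℝ) ≃ₜ Plane :=
  (Lq r hr).toContinuousLinearEquiv.toHomeomorph

theorem Lh_apply (r : ℝ) (hr : r ≠ 0) (p : ℝ × ℝ) : Lh r hr p = Lq r hr p := rfl

noncomputable def Pc (r : ℝ) (hr : r ≠ 0) (l : Fin 60) : Set Plane := Lh r hr '' Ti l

theorem G_image (r : ℝ) (hr : r ≠ 0) (l : Fin 60) : G r hr l '' Pc r hr l = Lh r hr '' T := by
  have hG : ∀ p, G r hr l (Lh r hr p) = Lh r hr ((dat l).app p) := by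
    intro p
    show Lq r hr ((dat l).app ((Lq r hr).symm (Lq r hr p))) = Lq r hr ((dat l).app p)
    rw [LinearEquiv.symm_apply_apply]
  ext x
  constructor
  · rintro ⟨_, ⟨p, hp, rfl⟩, rfl⟩
    exact ⟨_, hp, (hG p).symm⟩
  · rintro ⟨q, hq, rfl⟩
    refine ⟨_, ⟨(dat l).bck q, ?_, rfl⟩, ?_⟩
    · show (dat l).app ((dat l).bck q) ∈ T
      rw [app_bck (good_dat l)]
      exact hq
    · rw [hG, app_bck (good_dat l)]

theorem Pc_eq (r : ℝ) (hr : r ≠ 0) (l : Fin 60) :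
    Pc r hr l = (G r hr l).symm '' (Lh r hr '' T) := by
  rw [← G_image r hr l, ← image_comp]
  have : (⇑(G r hr l).symm ∘ ⇑(G r hr l)) = id := by
    funext x
    simp
  rw [this, image_id]

/-! ### Arcs -/

theorem arc_segment (x y : Plane) (h : x ≠ y) : IsRectifiableArc (segment ℝ x y) := by
  refine ⟨fun t => x + t • (y - x), ?_, ?_, ?_, ?_⟩
  · fun_prop
  · intro s _ t _ hst
    have h1 : s • (y - x) = t • (y - x) := add_left_cancel hst
    have h2 : (s - t) • (y - x) = 0 := by rw [sub_smul, h1, sub_self]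
    rcases smul_eq_zero.1 h2 with h3 | h3
    · linarith
    · exact absurd (sub_eq_zero.1 h3).symm h
  · have hl : LipschitzWith ⟨‖y - x‖, norm_nonneg _⟩ (fun t : ℝ => x + t • (y - x)) := by
      refine LipschitzWith.of_dist_le_mul fun s t => ?_
      rw [dist_add_left, dist_eq_norm, ← sub_smul, norm_smul, Real.dist_eq, Real.norm_eq_abs,
        mul_comm]
      rfl
    have h1 := hl.locallyBoundedVariationOn (univ : Set ℝ) 0 1 (mem_univ _) (mem_univ _)
    rwa [univ_inter] at h1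
  · rw [segment_eq_image']

theorem arc_image (g : Plane ≃ᵢ Plane) {A : Set Plane} (hA : IsRectifiableArc A) :
    IsRectifiableArc (g '' A) := by
  obtain ⟨γ, h1, h2, h3, rfl⟩ := hA
  refine ⟨g ∘ γ, g.continuous.comp_continuousOn h1, ?_, ?_, ?_⟩
  · exact g.injective.comp_injOn h2
  · exact g.isometry.lipschitz.comp_boundedVariationOn h3
  · rw [image_comp]

theorem arc_side (r : ℝ) (hr : r ≠ 0) (s : Set (ℝ × ℝ)) (hs : s ∈ sides) :
    IsRectifiableArc (Lh r hr '' s) := by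
  have key : ∀ x y : ℝ × ℝ, x ≠ y → IsRectifiableArc (Lh r hr '' segment ℝ x y) := by
    intro x y hxy
    have h1 : Lh r hr '' segment ℝ x y = segment ℝ (Lq r hr x) (Lq r hr y) :=
      image_segment ℝ (Lq r hr : (ℝ × ℝ) →ₗ[ℝ] Plane).toAffineMap x y
    rw [h1]
    exact arc_segment _ _ fun h => hxy ((Lq r hr).injective h)
  simp only [sides, mem_insert_iff, mem_singleton_iff] at hs
  rcases hs with rfl | rfl | rfl | rfl | rfl | rfl <;> apply key <;> simp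

/-! ### The regular hexagon -/

theorem hull_step {C : Set (ℝ × ℝ)} (hC : Convex ℝ C) (h0 : (0 : ℝ × ℝ) ∈ C) {u v : ℝ × ℝ}
    (hu : u ∈ C) (hv : v ∈ C) (a b : ℝ) (ha : 0 ≤ a) (hb : 0 ≤ b) (hab : a + b ≤ 1) :
    a • u + b • v ∈ C := by
  rcases eq_or_lt_of_le (add_nonneg ha hb) with h | h
  · have ha0 : a = 0 := by linarith
    have hb0 : b = 0 := by linarith
    rw [ha0, hb0, zero_smul, zero_smul, add_zero]
    exact h0
  · have h1 : (a / (a + b)) • u + (b / (a + b)) • v ∈ C :=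
      hC hu hv (by positivity) (by positivity) (by field_simp)
    have h2 := hC h0 h1 (sub_nonneg.2 hab) (add_nonneg ha hb) (by ring)
    rw [smul_zero, zero_add, smul_add, smul_smul, smul_smul, mul_div_cancel₀ _ h.ne',
      mul_div_cancel₀ _ h.ne'] at h2
    exact h2

def vert : Fin 6 → ℝ × ℝ := ![(10, 0), (0, 10), (-10, 10), (-10, 0), (0, -10), (10, -10)]

theorem hull_vert : convexHull ℝ (range vert) = Hx := by
  apply subset_antisymm
  · refine convexHull_min ?_ Hx_convex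
    rintro _ ⟨k, rfl⟩
    fin_cases k <;> simp [vert, Hx]
  · have hmem : ∀ k, vert k ∈ convexHull ℝ (range vert) := fun k =>
      subset_convexHull ℝ _ ⟨k, rfl⟩
    have v0 : ((10, 0) : ℝ × ℝ) ∈ convexHull ℝ (range vert) := hmem 0
    have v1 : ((0, 10) : ℝ × ℝ) ∈ convexHull ℝ (range vert) := hmem 1
    have v2 : ((-10, 10) : ℝ × ℝ) ∈ convexHull ℝ (range vert) := hmem 2
    have v3 : ((-10, 0) : ℝ × ℝ) ∈ convexHull ℝ (range vert) := hmem 3
    have v4 : ((0, -10) : ℝ × ℝ) ∈ convexHull ℝ (range vert) := hmem 4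
    have v5 : ((10, -10) : ℝ × ℝ) ∈ convexHull ℝ (range vert) := hmem 5
    have hC := convex_convexHull ℝ (range vert)
    have h0 : (0 : ℝ × ℝ) ∈ convexHull ℝ (range vert) := by
      have := hC v0 v3 (by norm_num : (0:ℝ) ≤ 1 / 2) (by norm_num : (0:ℝ) ≤ 1 / 2) (by norm_num)
      have e : (1 / 2 : ℝ) • ((10, 0) : ℝ × ℝ) + (1 / 2 : ℝ) • ((-10, 0) : ℝ × ℝ) = 0 := by
        ext <;> simp
      rwa [e] at this
    rintro ⟨a, b⟩ ⟨h1, h2, h3, h4, h5, h6⟩
    simp only at h1 h2 h3 h4 h5 h6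
    rcases le_total 0 a with ha | ha <;> rcases le_total 0 b with hb | hb
    · have := hull_step hC h0 v0 v1 (a / 10) (b / 10) (by positivity) (by positivity)
        (by linarith)
      have e : (a / 10) • ((10, 0) : ℝ × ℝ) + (b / 10) • ((0, 10) : ℝ × ℝ) = (a, b) := by
        ext <;> simp
      rwa [e] at this
    · rcases le_total 0 (a + b) with hc | hc
      · have := hull_step hC h0 v0 v5 ((a + b) / 10) (-b / 10) (by positivity)
          (by linarith) (by linarith)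
        have e : ((a + b) / 10) • ((10, 0) : ℝ × ℝ) + (-b / 10) • ((10, -10) : ℝ × ℝ) =
            (a, b) := by
          ext <;> simp <;> ring
        rwa [e] at this
      · have := hull_step hC h0 v4 v5 (-(a + b) / 10) (a / 10) (by linarith)
          (by positivity) (by linarith)
        have e : (-(a + b) / 10) • ((0, -10) : ℝ × ℝ) + (a / 10) • ((10, -10) : ℝ × ℝ) =
            (a, b) := by
          ext <;> simp <;> ring
        rwa [e] at this
    · rcases le_total 0 (a + b) with hc | hc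
      · have := hull_step hC h0 v1 v2 ((a + b) / 10) (-a / 10) (by positivity)
          (by linarith) (by linarith)
        have e : ((a + b) / 10) • ((0, 10) : ℝ × ℝ) + (-a / 10) • ((-10, 10) : ℝ × ℝ) =
            (a, b) := by
          ext <;> simp <;> ring
        rwa [e] at this
      · have := hull_step hC h0 v3 v2 (-(a + b) / 10) (b / 10) (by linarith)
          (by positivity) (by linarith)
        have e : (-(a + b) / 10) • ((-10, 0) : ℝ × ℝ) + (b / 10) • ((-10, 10) : ℝ × ℝ) =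
            (a, b) := by
          ext <;> simp <;> ring
        rwa [e] at this
    · have := hull_step hC h0 v3 v4 (-a / 10) (-b / 10) (by linarith) (by linarith)
        (by linarith)
      have e : (-a / 10) • ((-10, 0) : ℝ × ℝ) + (-b / 10) • ((0, -10) : ℝ × ℝ) = (a, b) := by
        ext <;> simp <;> ring
      rwa [e] at this

theorem hexagon_eq (R : ℝ) (hR : R / 10 ≠ 0) : regularPolygon 6 R = Lh (R / 10) hR '' Hx := by
  have hv : (fun k : Fin 6 => (!₂[R * Real.cos (2 * Real.pi * k / (6 : ℕ)),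
      R * Real.sin (2 * Real.pi * k / (6 : ℕ))] : Plane)) = fun k => Lq (R / 10) hR (vert k) := by
    have hc : ∀ k : Fin 6, Real.cos (2 * Real.pi * k / (6 : ℕ)) =
        ![1, 1 / 2, -(1 / 2), -1, -(1 / 2), 1 / 2] k := by
      intro k
      fin_cases k
      · show Real.cos (2 * Real.pi * ((0 : ℕ) : ℝ) / ((6 : ℕ) : ℝ)) = 1
        simp
      · show Real.cos (2 * Real.pi * ((1 : ℕ) : ℝ) / ((6 : ℕ) : ℝ)) = 1 / 2
        rw [show 2 * Real.pi * ((1 : ℕ) : ℝ) / ((6 : ℕ) : ℝ) = Real.pi / 3 by push_cast; ring,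
          Real.cos_pi_div_three]
      · show Real.cos (2 * Real.pi * ((2 : ℕ) : ℝ) / ((6 : ℕ) : ℝ)) = -(1 / 2)
        rw [show 2 * Real.pi * ((2 : ℕ) : ℝ) / ((6 : ℕ) : ℝ) = Real.pi - Real.pi / 3 by
          push_cast; ring, Real.cos_pi_sub, Real.cos_pi_div_three]
      · show Real.cos (2 * Real.pi * ((3 : ℕ) : ℝ) / ((6 : ℕ) : ℝ)) = -1
        rw [show 2 * Real.pi * ((3 : ℕ) : ℝ) / ((6 : ℕ) : ℝ) = Real.pi by push_cast; ring,
          Real.cos_pi]
      · show Real.cos (2 * Real.pi * ((4 : ℕ) : ℝ) / ((6 : ℕ) : ℝ)) = -(1 / 2)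
        rw [show 2 * Real.pi * ((4 : ℕ) : ℝ) / ((6 : ℕ) : ℝ) = Real.pi / 3 + Real.pi by
          push_cast; ring, Real.cos_add_pi, Real.cos_pi_div_three]
      · show Real.cos (2 * Real.pi * ((5 : ℕ) : ℝ) / ((6 : ℕ) : ℝ)) = 1 / 2
        rw [show 2 * Real.pi * ((5 : ℕ) : ℝ) / ((6 : ℕ) : ℝ) = 2 * Real.pi - Real.pi / 3 by
          push_cast; ring, Real.cos_two_pi_sub, Real.cos_pi_div_three]
    have hs : ∀ k : Fin 6, Real.sin (2 * Real.pi * k / (6 : ℕ)) =
        ![0, √3 / 2, √3 / 2, 0, -(√3 / 2), -(√3 / 2)] k := by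
      intro k
      fin_cases k
      · show Real.sin (2 * Real.pi * ((0 : ℕ) : ℝ) / ((6 : ℕ) : ℝ)) = 0
        simp
      · show Real.sin (2 * Real.pi * ((1 : ℕ) : ℝ) / ((6 : ℕ) : ℝ)) = √3 / 2
        rw [show 2 * Real.pi * ((1 : ℕ) : ℝ) / ((6 : ℕ) : ℝ) = Real.pi / 3 by push_cast; ring,
          Real.sin_pi_div_three]
      · show Real.sin (2 * Real.pi * ((2 : ℕ) : ℝ) / ((6 : ℕ) : ℝ)) = √3 / 2
        rw [show 2 * Real.pi * ((2 : ℕ) : ℝ) / ((6 : ℕ) : ℝ) = Real.pi - Real.pi / 3 by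
          push_cast; ring, Real.sin_pi_sub, Real.sin_pi_div_three]
      · show Real.sin (2 * Real.pi * ((3 : ℕ) : ℝ) / ((6 : ℕ) : ℝ)) = 0
        rw [show 2 * Real.pi * ((3 : ℕ) : ℝ) / ((6 : ℕ) : ℝ) = Real.pi by push_cast; ring,
          Real.sin_pi]
      · show Real.sin (2 * Real.pi * ((4 : ℕ) : ℝ) / ((6 : ℕ) : ℝ)) = -(√3 / 2)
        rw [show 2 * Real.pi * ((4 : ℕ) : ℝ) / ((6 : ℕ) : ℝ) = Real.pi / 3 + Real.pi by
          push_cast; ring, Real.sin_add_pi, Real.sin_pi_div_three]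
      · show Real.sin (2 * Real.pi * ((5 : ℕ) : ℝ) / ((6 : ℕ) : ℝ)) = -(√3 / 2)
        rw [show 2 * Real.pi * ((5 : ℕ) : ℝ) / ((6 : ℕ) : ℝ) = 2 * Real.pi - Real.pi / 3 by
          push_cast; ring, Real.sin_two_pi_sub, Real.sin_pi_div_three]
    funext k
    rw [hc k, hs k]
    ext i
    fin_cases k <;> fin_cases i <;> simp [Lq, vert] <;> ring
  unfold regularPolygon
  rw [hv, ← hull_vert]
  have h1 := LinearMap.image_convexHull (Lq (R / 10) hR : (ℝ × ℝ) →ₗ[ℝ] Plane) (range vert)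
  rw [← range_comp] at h1
  exact h1.symm

theorem app_affine (d : Dat) (x y : ℝ × ℝ) (a b : ℝ) (hab : a + b = 1) :
    d.app (a • x + b • y) = a • d.app x + b • d.app y := by
  have ha : a = 1 - b := by linarith
  subst ha
  ext
  · simp [Dat.app]; ring
  · simp [Dat.app]; ring

/-- **Theorem.** For every `R > 0` the regular hexagon with centre `0` and circumradius `R` has a
congruent dissection into sixty pieces, each of them star-shaped with respect to an interior point,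
such that the centre of the hexagon is an interior point of one of the pieces. -/
theorem result (R : ℝ) (hR : 0 < R) :
    ∃ P : Fin 60 → Set Plane, IsCongruentDissection (regularPolygon 6 R) P ∧
      (∀ i, ∃ c ∈ interior (P i), StarConvex ℝ c (P i)) ∧ ∃ i, (0 : Plane) ∈ interior (P i) := by
  have hr : R / 10 ≠ 0 := by positivity
  refine ⟨Pc (R / 10) hr, ⟨?_, ?_, ?_, ?_, ?_, ?_⟩, ?_, ?_⟩
  · intro i
    rw [Pc_eq]
    exact (T_compact.image (Lh _ hr).continuous).image (G _ hr i).symm.continuous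
  · rw [hexagon_eq R hr, ← cover_Hx, image_iUnion]
    rfl
  · intro i j hij
    unfold Pc
    rw [← Homeomorph.image_interior, ← Homeomorph.image_interior,
      Set.disjoint_image_iff (Lh _ hr).injective]
    exact disjoint_Ti i j hij
  · intro i
    rw [Pc_eq]
    have e1 : ∀ s : Set Plane, interior ((G (R / 10) hr i).symm '' s) =
        (G (R / 10) hr i).symm '' interior s := fun s =>
      ((G (R / 10) hr i).symm.toHomeomorph.image_interior s).symm
    have e2 : ∀ s : Set Plane, closure ((G (R / 10) hr i).symm '' s) =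
        (G (R / 10) hr i).symm '' closure s := fun s =>
      ((G (R / 10) hr i).symm.toHomeomorph.image_closure s).symm
    rw [e1, e2, ← (Lh (R / 10) hr).image_interior, ← (Lh (R / 10) hr).image_closure, T_regular]
  · intro i
    refine ⟨(fun s => (G (R / 10) hr i).symm '' (Lh (R / 10) hr '' s)) '' sides, ?_, ?_, ?_⟩
    · apply Set.Finite.image
      simp [sides]
    · rintro _ ⟨s, hs, rfl⟩
      exact arc_image _ (arc_side _ hr s hs)
    · rw [Pc_eq]
      have e1 : ∀ s : Set Plane, frontier ((G (R / 10) hr i).symm '' s) =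
          (G (R / 10) hr i).symm '' frontier s := fun s =>
        ((G (R / 10) hr i).symm.toHomeomorph.image_frontier s).symm
      rw [e1, ← (Lh (R / 10) hr).image_frontier, T_frontier, sUnion_eq_biUnion, image_iUnion₂,
        image_iUnion₂, sUnion_image]
  · intro i j
    refine ⟨(G _ hr i).trans (G _ hr j).symm, ?_⟩
    rw [Pc_eq _ hr j, ← G_image _ hr i, ← image_comp]
    rfl
  · intro i
    refine ⟨Lh _ hr ((dat i).bck (5 / 4, 1)), ?_, ?_⟩
    · unfold Pc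
      rw [← Homeomorph.image_interior]
      refine mem_image_of_mem _ ?_
      have h1 := preimage_interior_subset_interior_preimage (app_continuous (dat i)) (t := T)
      apply h1
      rw [mem_preimage, app_bck (good_dat i), T_interior]
      refine ⟨?_, ?_, ?_, ?_, ?_⟩ <;> norm_num
    · have h2 : StarConvex ℝ ((dat i).bck (5 / 4, 1)) (Ti i) := by
        intro y hy a b ha hb hab
        show (dat i).app _ ∈ T
        rw [app_affine _ _ _ _ _ hab, app_bck (good_dat i)]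
        exact T_star hy ha hb hab
      exact h2.linear_image (Lq (R / 10) hr : (ℝ × ℝ) →ₗ[ℝ] Plane)
  · refine ⟨24, ?_⟩
    unfold Pc
    rw [← Homeomorph.image_interior]
    refine ⟨(0, 0), ?_, ?_⟩
    · have h1 := preimage_interior_subset_interior_preimage (app_continuous (dat 24)) (t := T)
      apply h1
      rw [mem_preimage]
      have e : (dat 24).app (0, 0) = (1, 1) := by
        have e2 : dat 24 = ⟨1, 1, 0, -1, -2, 1⟩ := by rfl
        rw [e2]
        ext <;> norm_num [Dat.app]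
      rw [e, T_interior]
      refine ⟨?_, ?_, ?_, ?_, ?_⟩ <;> norm_num
    · rw [Lh_apply]
      exact map_zero _

end Pool.Agent.Results.MP_8eede0_co.HexagonCentre
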